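import Pool.Agent.Helper33.J.W
import Pool.Agent.Helper31.J.Consist

/-!
T-junctions: uniform second order Taylor expansion of the limit function `W` on compact sets.
-/

set_option autoImplicit false

open Real Filter Topology MeasureTheory Set

namespace JW

/-- a `C^1` function is uniformly Lipschitz and bounded near a compact set -/
lemma unif_lip {f : ℝ × ℝ → ℝ} {U S : Set (ℝ × ℝ)} (hU : IsOpen U) (hf : ContDiffOn ℝ 1 f U)
    (hS : IsCompact S) (hSU : S ⊆ U) :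
    ∃ M ρ : ℝ, 0 < M ∧ 0 < ρ ∧ ∀ p ∈ S, |f p| ≤ M ∧
      ∀ q, dist q p ≤ ρ → q ∈ U ∧ |f q - f p| ≤ M * dist q p := by
  obtain ⟨δ, hδ, hsub⟩ := hS.exists_cthickening_subset_open hU hSU
  have hK : IsCompact (Metric.cthickening δ S) := hS.cthickening
  have hc := hf.continuousOn_fderiv_of_isOpen hU le_rfl
  obtain ⟨M, hM⟩ := hK.exists_bound_of_continuousOn (hc.mono hsub)
  obtain ⟨M', hM'⟩ := hK.exists_bound_of_continuousOn (hf.continuousOn.mono hsub)
  refine ⟨max (max M M') 1, δ, by positivity, hδ, fun p hp => ?_⟩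
  have hpS : p ∈ Metric.cthickening δ S := Metric.self_subset_cthickening S hp
  refine ⟨?_, fun q hq => ?_⟩
  · have := hM' p hpS
    rw [Real.norm_eq_abs] at this
    exact this.trans ((le_max_right _ _).trans (le_max_left _ _))
  have hball : Metric.closedBall p δ ⊆ Metric.cthickening δ S := by
    intro x hx
    exact Metric.mem_cthickening_of_dist_le x p δ S hp hx
  have hqb : q ∈ Metric.closedBall p δ := hq
  have hpb : p ∈ Metric.closedBall p δ := Metric.mem_closedBall_self hδ.le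
  refine ⟨hsub (hball hqb), ?_⟩
  have h := Convex.norm_image_sub_le_of_norm_fderiv_le (𝕜 := ℝ) (f := f) (C := max (max M M') 1)
    (s := Metric.closedBall p δ) (x := p) (y := q)
    (fun x hx => (hf.contDiffAt (hU.mem_nhds (hsub (hball hx)))).differentiableAt one_ne_zero)
    (fun x hx => (hM x (hball hx)).trans ((le_max_left _ _).trans (le_max_left _ _)))
    (convex_closedBall p δ) hpb hqb
  rw [Real.norm_eq_abs, ← dist_eq_norm] at h
  exact h

lemma line_X (X h s : ℝ) : HasDerivAt (fun s : ℝ => X + s * h) h s := by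
  have := ((hasDerivAt_id s).mul_const h).const_add X
  refine this.congr_deriv ?_
  ring

/-- bound of the increment on `[0,1]` -/
lemma inc_le {f f' : ℝ → ℝ} {C : ℝ} (hd : ∀ s ∈ Icc (0 : ℝ) 1, HasDerivAt f (f' s) s)
    (hb : ∀ s ∈ Icc (0 : ℝ) 1, |f' s| ≤ C) {t : ℝ} (ht : t ∈ Icc (0 : ℝ) 1) :
    |f t - f 0| ≤ C := by
  have h := Convex.norm_image_sub_le_of_norm_hasDerivWithin_le (f := f) (f' := f') (C := C)
    (s := Icc 0 1) (x := 0) (y := t) (fun s hs => (hd s hs).hasDerivWithinAt)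
    (fun s hs => by rw [Real.norm_eq_abs]; exact hb s hs) (convex_Icc 0 1)
    ⟨le_rfl, zero_le_one⟩ ht
  rw [Real.norm_eq_abs, Real.norm_eq_abs, sub_zero, abs_of_nonneg ht.1] at h
  have hC : 0 ≤ C := (abs_nonneg _).trans (hb 0 ⟨le_rfl, zero_le_one⟩)
  calc |f t - f 0| ≤ C * t := h
    _ ≤ C * 1 := by
        apply mul_le_mul_of_nonneg_left ht.2 hC
    _ = C := mul_one C

/-- Taylor estimate at one point -/
lemma taylor_pt {M ρ X Y h k : ℝ} (hM : 0 < M) (hh : |h| ≤ ρ) (hk : |k| ≤ ρ)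
    (hO : ∀ q : ℝ × ℝ, dist q (X, Y) ≤ ρ → q ∈ O)
    (h1 : ∀ q : ℝ × ℝ, dist q (X, Y) ≤ ρ → |WXX q.1 q.2 - WXX X Y| ≤ M * dist q (X, Y))
    (h2 : ∀ q : ℝ × ℝ, dist q (X, Y) ≤ ρ → |WXY q.1 q.2 - WXY X Y| ≤ M * dist q (X, Y))
    (h3 : ∀ q : ℝ × ℝ, dist q (X, Y) ≤ ρ → |WYY q.1 q.2 - WYY X Y| ≤ M * dist q (X, Y)) :
    |W (X + h) (Y + k) - (W X Y + (WX X Y * h + WY X Y * k +
      (WXX X Y * h ^ 2 + 2 * WXY X Y * (h * k) + WYY X Y * k ^ 2) / 2))| ≤
      M * (|h| + |k|) ^ 3 := by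
  set r := |h| + |k| with hr
  have hr0 : 0 ≤ r := by positivity
  -- distance along the segment
  have hdist : ∀ s ∈ Icc (0 : ℝ) 1, dist ((X + s * h, Y + s * k) : ℝ × ℝ) (X, Y) ≤ ρ ∧
      dist ((X + s * h, Y + s * k) : ℝ × ℝ) (X, Y) ≤ r := by
    intro s hs
    have e1 : |s * h| ≤ |h| := by
      rw [abs_mul, abs_of_nonneg hs.1]
      exact mul_le_of_le_one_left (abs_nonneg h) hs.2
    have e2 : |s * k| ≤ |k| := by
      rw [abs_mul, abs_of_nonneg hs.1]
      exact mul_le_of_le_one_left (abs_nonneg k) hs.2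
    rw [Prod.dist_eq]
    simp only [Real.dist_eq, add_sub_cancel_left]
    have := abs_nonneg h
    have := abs_nonneg k
    exact ⟨max_le (e1.trans hh) (e2.trans hk), max_le (by linarith) (by linarith)⟩
  have hOs : ∀ s ∈ Icc (0 : ℝ) 1, (X + s * h, Y + s * k) ∈ O := fun s hs => hO _ (hdist s hs).1
  set φ1 : ℝ → ℝ := fun s => WX (X + s * h) (Y + s * k) * h + WY (X + s * h) (Y + s * k) * k
    with hφ1
  set φ2 : ℝ → ℝ := fun s => (WXX (X + s * h) (Y + s * k) * h + WXY (X + s * h) (Y + s * k) * k) * h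
    + (WXY (X + s * h) (Y + s * k) * h + WYY (X + s * h) (Y + s * k) * k) * k with hφ2
  have d0 : ∀ s ∈ Icc (0 : ℝ) 1, HasDerivAt (fun s => W (X + s * h) (Y + s * k)) (φ1 s) s :=
    fun s hs => W_curve (line_X X h s) (line_X Y k s) (hOs s hs)
  have d1 : ∀ s ∈ Icc (0 : ℝ) 1, HasDerivAt φ1 (φ2 s) s := fun s hs =>
    ((WX_curve (line_X X h s) (line_X Y k s) (hOs s hs)).mul_const h).add
      ((WY_curve (line_X X h s) (line_X Y k s) (hOs s hs)).mul_const k)
  have z0 : (0 : ℝ) ∈ Icc (0 : ℝ) 1 := ⟨le_rfl, zero_le_one⟩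
  have z1 : (1 : ℝ) ∈ Icc (0 : ℝ) 1 := ⟨zero_le_one, le_rfl⟩
  have b2 : ∀ s ∈ Icc (0 : ℝ) 1, |φ2 s - φ2 0| ≤ M * r ^ 3 := by
    intro s hs
    obtain ⟨e1, e2⟩ := hdist s hs
    have a1 := (h1 _ e1).trans (mul_le_mul_of_nonneg_left e2 hM.le)
    have a2 := (h2 _ e1).trans (mul_le_mul_of_nonneg_left e2 hM.le)
    have a3 := (h3 _ e1).trans (mul_le_mul_of_nonneg_left e2 hM.le)
    simp only at a1 a2 a3
    have e : φ2 s - φ2 0 = (WXX (X + s * h) (Y + s * k) - WXX X Y) * h ^ 2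
        + 2 * (WXY (X + s * h) (Y + s * k) - WXY X Y) * (h * k)
        + (WYY (X + s * h) (Y + s * k) - WYY X Y) * k ^ 2 := by
      simp only [hφ2, zero_mul, add_zero]
      ring
    rw [e]
    have t1 : |(WXX (X + s * h) (Y + s * k) - WXX X Y) * h ^ 2| ≤ M * r * |h| ^ 2 := by
      rw [abs_mul, abs_pow]
      gcongr
    have t2 : |2 * (WXY (X + s * h) (Y + s * k) - WXY X Y) * (h * k)| ≤
        2 * (M * r) * (|h| * |k|) := by
      rw [abs_mul, abs_mul, abs_mul, abs_two]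
      gcongr
    have t3 : |(WYY (X + s * h) (Y + s * k) - WYY X Y) * k ^ 2| ≤ M * r * |k| ^ 2 := by
      rw [abs_mul, abs_pow]
      gcongr
    calc |(WXX (X + s * h) (Y + s * k) - WXX X Y) * h ^ 2
        + 2 * (WXY (X + s * h) (Y + s * k) - WXY X Y) * (h * k)
        + (WYY (X + s * h) (Y + s * k) - WYY X Y) * k ^ 2| ≤
        M * r * |h| ^ 2 + 2 * (M * r) * (|h| * |k|) + M * r * |k| ^ 2 :=
          (abs_add_le _ _).trans (add_le_add ((abs_add_le _ _).trans (add_le_add t1 t2)) t3)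
      _ = M * r ^ 3 := by rw [hr]; ring
  have b1 : ∀ s ∈ Icc (0 : ℝ) 1, |φ1 s - φ1 0 - φ2 0 * s| ≤ M * r ^ 3 := by
    intro s hs
    have hd : ∀ s ∈ Icc (0 : ℝ) 1, HasDerivAt (fun s => φ1 s - φ1 0 - φ2 0 * s)
        (φ2 s - φ2 0) s := by
      intro s hs
      have := ((d1 s hs).sub_const (φ1 0)).sub ((hasDerivAt_id s).const_mul (φ2 0))
      refine this.congr_deriv ?_
      ring
    have := inc_le hd b2 hs
    simpa using this
  have b0 : |(fun s => W (X + s * h) (Y + s * k) - W X Y - φ1 0 * s - φ2 0 * (s ^ 2 / 2)) 1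
      - (fun s => W (X + s * h) (Y + s * k) - W X Y - φ1 0 * s - φ2 0 * (s ^ 2 / 2)) 0| ≤
      M * r ^ 3 := by
    refine inc_le (f := fun s => W (X + s * h) (Y + s * k) - W X Y - φ1 0 * s -
      φ2 0 * (s ^ 2 / 2)) (f' := fun s => φ1 s - φ1 0 - φ2 0 * s) ?_ b1 z1
    intro s hs
    have := (((d0 s hs).sub_const (W X Y)).sub ((hasDerivAt_id s).const_mul (φ1 0))).sub
      ((((hasDerivAt_id s).pow 2).div_const 2).const_mul (φ2 0))
    refine this.congr_deriv ?_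
    simp only [id]
    ring
  have e : W (X + h) (Y + k) - (W X Y + (WX X Y * h + WY X Y * k +
      (WXX X Y * h ^ 2 + 2 * WXY X Y * (h * k) + WYY X Y * k ^ 2) / 2)) =
      (fun s => W (X + s * h) (Y + s * k) - W X Y - φ1 0 * s - φ2 0 * (s ^ 2 / 2)) 1
      - (fun s => W (X + s * h) (Y + s * k) - W X Y - φ1 0 * s - φ2 0 * (s ^ 2 / 2)) 0 := by
    simp only [hφ1, hφ2, zero_mul, add_zero, one_mul]
    ring
  rw [e]
  exact b0

/-- uniform Taylor data on compact sets -/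
theorem tay_compact {S : Set (ℝ × ℝ)} (hS : IsCompact S) (hSO : S ⊆ O) :
    ∃ C ρ : ℝ, 0 < C ∧ 0 < ρ ∧ ∀ X Y : ℝ, (X, Y) ∈ S →
      JL31.Tay W C ρ X Y (WX X Y) (WY X Y) (WXX X Y) (WXY X Y) (WYY X Y) := by
  obtain ⟨M1, r1, hM1, hr1, H1⟩ := unif_lip isOpen_O smooth_WX hS hSO
  obtain ⟨M2, r2, hM2, hr2, H2⟩ := unif_lip isOpen_O smooth_WY hS hSO
  obtain ⟨M3, r3, hM3, hr3, H3⟩ := unif_lip isOpen_O smooth_WXX hS hSO
  obtain ⟨M4, r4, hM4, hr4, H4⟩ := unif_lip isOpen_O smooth_WXY hS hSO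
  obtain ⟨M5, r5, hM5, hr5, H5⟩ := unif_lip isOpen_O smooth_WYY hS hSO
  set C := M1 + M2 + M3 + M4 + M5 with hC
  set ρ := min r3 (min r4 r5) with hρ
  have hCpos : 0 < C := by positivity
  refine ⟨C, ρ, hCpos, by positivity, fun X Y hXY => ?_⟩
  have k3 : ρ ≤ r3 := min_le_left _ _
  have k4 : ρ ≤ r4 := (min_le_right _ _).trans (min_le_left _ _)
  have k5 : ρ ≤ r5 := (min_le_right _ _).trans (min_le_right _ _)
  refine ⟨fun h k hh hk => ?_, ?_, (H1 _ hXY).1.trans (by linarith),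
    (H2 _ hXY).1.trans (by linarith), (H3 _ hXY).1.trans (by linarith),
    (H4 _ hXY).1.trans (by linarith), (H5 _ hXY).1.trans (by linarith)⟩
  · refine taylor_pt hCpos hh hk (fun q hq => ((H3 _ hXY).2 q (hq.trans k3)).1)
      (fun q hq => (((H3 _ hXY).2 q (hq.trans k3)).2).trans ?_)
      (fun q hq => (((H4 _ hXY).2 q (hq.trans k4)).2).trans ?_)
      (fun q hq => (((H5 _ hXY).2 q (hq.trans k5)).2).trans ?_)
    all_goals
      apply mul_le_mul_of_nonneg_right _ dist_nonneg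
      linarith
  · have := pde (hSO hXY)
    linarith

end JW
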