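import Pool.Agent.Helper12.Slit.Asym

/-!
T-junctions: the limit function `W X Y = cardy (lam X Y)` of `X = (i/L)^2`, `Y = (h/L)^2`, where
`lam` is the cross-ratio of the T-junction (upper leg `i`, lower leg `L`, right leg `h`).
-/

set_option autoImplicit false

open Real Filter Topology MeasureTheory Set

namespace JW

/-- the weight in Cardy's function -/
noncomputable def wt (t : ℝ) : ℝ := (t * (1 - t)) ^ (-(2 / 3) : ℝ)

/-- the constant in Cardy's function -/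
noncomputable def kc : ℝ := Gamma (2 / 3) / Gamma (1 / 3) ^ 2

lemma kc_pos : 0 < kc := by
  have h1 := Gamma_pos_of_pos (show (0 : ℝ) < 1 / 3 by norm_num)
  have h2 := Gamma_pos_of_pos (show (0 : ℝ) < 2 / 3 by norm_num)
  unfold kc
  positivity

lemma cardy_eq (a : ℝ) : Slit.cardy a = kc * ∫ t in (0 : ℝ)..a, wt t := rfl

lemma wt_int01 : IntervalIntegrable wt volume 0 1 := by
  rw [intervalIntegrable_iff_integrableOn_Ioo_of_le zero_le_one]
  exact Slit.weight_integrable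

lemma wt_int {a b : ℝ} (ha : a ∈ Icc (0 : ℝ) 1) (hb : b ∈ Icc (0 : ℝ) 1) :
    IntervalIntegrable wt volume a b := by
  refine wt_int01.mono_set ?_
  rw [uIcc_of_le zero_le_one]
  exact uIcc_subset_Icc ha hb

lemma wt_nonneg {t : ℝ} (h : t ∈ Icc (0 : ℝ) 1) : 0 ≤ wt t :=
  rpow_nonneg (mul_nonneg h.1 (by linarith [h.2])) _

lemma cardy_zero : Slit.cardy 0 = 0 := by
  rw [cardy_eq, intervalIntegral.integral_same, mul_zero]

lemma cardy_sub {a b : ℝ} (ha : a ∈ Icc (0 : ℝ) 1) (hb : b ∈ Icc (0 : ℝ) 1) :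
    Slit.cardy b - Slit.cardy a = kc * ∫ t in a..b, wt t := by
  have h0 : (0 : ℝ) ∈ Icc (0 : ℝ) 1 := ⟨le_rfl, zero_le_one⟩
  rw [cardy_eq, cardy_eq, ← mul_sub,
    intervalIntegral.integral_interval_sub_left (wt_int h0 hb) (wt_int h0 ha)]

lemma cardy_mono : MonotoneOn Slit.cardy (Icc 0 1) := by
  intro a ha b hb hab
  have h1 := cardy_sub ha hb
  have h2 : 0 ≤ ∫ t in a..b, wt t :=
    intervalIntegral.integral_nonneg hab fun t ht =>
      wt_nonneg ⟨le_trans ha.1 ht.1, le_trans ht.2 hb.2⟩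
  have h3 := mul_nonneg kc_pos.le h2
  linarith

lemma cardy_cont : ContinuousOn Slit.cardy (Icc 0 1) := by
  have h : ContinuousOn (fun a => ∫ t in (0 : ℝ)..a, wt t) (Icc 0 1) := by
    have h2 := intervalIntegral.continuousOn_primitive_interval
      (f := wt) (μ := volume) (a := 0) (b := 1) (by
        have := wt_int01
        rw [intervalIntegrable_iff_integrableOn_Icc_of_le zero_le_one] at this
        rw [uIcc_of_le zero_le_one]
        exact this)
    rw [uIcc_of_le zero_le_one] at h2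
    exact h2
  exact continuousOn_const.mul h

lemma cardy_nonneg {a : ℝ} (h : a ∈ Icc (0 : ℝ) 1) : 0 ≤ Slit.cardy a := by
  rw [← cardy_zero]
  exact cardy_mono ⟨le_rfl, zero_le_one⟩ h h.1

lemma cardy_le_one {a : ℝ} (h : a ∈ Icc (0 : ℝ) 1) : Slit.cardy a ≤ 1 := by
  rw [← Slit.cardy_one]
  exact cardy_mono h ⟨zero_le_one, le_rfl⟩ h.2

lemma wt_pos {a : ℝ} (h : a ∈ Ioo (0 : ℝ) 1) : 0 < wt a :=
  rpow_pos_of_pos (mul_pos h.1 (by linarith [h.2])) _

lemma wt_deriv {a : ℝ} (h : a ∈ Ioo (0 : ℝ) 1) :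
    HasDerivAt wt (-(2 / 3) * (1 - 2 * a) / (a * (1 - a)) * wt a) a := by
  have h0 := h.1
  have h1 : 0 < 1 - a := by linarith [h.2]
  have hp : 0 < a * (1 - a) := mul_pos h0 h1
  have hd : HasDerivAt (fun t : ℝ => t * (1 - t)) (1 - 2 * a) a := by
    have := (hasDerivAt_id a).mul ((hasDerivAt_id a).const_sub 1)
    refine this.congr_deriv ?_
    simp only [id]
    ring
  have h2 := hd.rpow_const (p := -(2 / 3)) (Or.inl hp.ne')
  refine h2.congr_deriv ?_
  unfold wt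
  rw [rpow_sub_one hp.ne']
  field_simp

lemma wt_cont {a : ℝ} (h : a ∈ Ioo (0 : ℝ) 1) : ContinuousAt wt a := (wt_deriv h).continuousAt

lemma cardy_deriv {a : ℝ} (h : a ∈ Ioo (0 : ℝ) 1) : HasDerivAt Slit.cardy (kc * wt a) a := by
  have h1 : HasDerivAt (fun a => ∫ t in (0 : ℝ)..a, wt t) (wt a) a := by
    refine intervalIntegral.integral_hasDerivAt_right
      (wt_int ⟨le_rfl, zero_le_one⟩ ⟨h.1.le, h.2.le⟩) ?_ (wt_cont h)
    refine ContinuousOn.stronglyMeasurableAtFilter isOpen_Ioo ?_ a h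
    intro x hx
    exact (wt_cont hx).continuousWithinAt
  exact h1.const_mul kc

/-- the square root of the discriminant -/
noncomputable def rt (X Y : ℝ) : ℝ := √((1 + X + Y) ^ 2 - 4 * X)

/-- the cross-ratio -/
noncomputable def lam (X Y : ℝ) : ℝ := ((1 + X + Y) - rt X Y) / 2

/-- the limit of the crossing probability -/
noncomputable def W (X Y : ℝ) : ℝ := Slit.cardy (lam X Y)

/-- the domain where `W` is smooth -/
def O : Set (ℝ × ℝ) :=
  {p | 0 < p.1 ∧ (0 < p.2 ∨ (p.1 < 1 ∧ -(1 - √p.1) ^ 2 < p.2))}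

lemma isOpen_O : IsOpen O := by
  have h1 : IsOpen {p : ℝ × ℝ | 0 < p.1} := isOpen_lt continuous_const continuous_fst
  have h2 : IsOpen {p : ℝ × ℝ | 0 < p.2} := isOpen_lt continuous_const continuous_snd
  have h3 : IsOpen {p : ℝ × ℝ | p.1 < 1} := isOpen_lt continuous_fst continuous_const
  have h4 : IsOpen {p : ℝ × ℝ | -(1 - √p.1) ^ 2 < p.2} :=
    isOpen_lt (by fun_prop) continuous_snd
  exact h1.inter (h2.union (h3.inter h4))

lemma mem_O {X Y : ℝ} (hX : 0 < X) (hY : 0 ≤ Y) (h : X < 1 ∨ 0 < Y) : (X, Y) ∈ O := by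
  refine ⟨hX, ?_⟩
  rcases h with h | h
  · right
    refine ⟨h, ?_⟩
    have h1 : √X < 1 := by
      rw [Real.sqrt_lt' one_pos]
      simpa using h
    have h2 : 0 < (1 - √X) ^ 2 := by
      have : 0 < 1 - √X := by linarith
      positivity
    show -(1 - √X) ^ 2 < Y
    linarith
  · left
    exact h

lemma disc_pos {X Y : ℝ} (h : (X, Y) ∈ O) : 0 < (1 + X + Y) ^ 2 - 4 * X := by
  obtain ⟨hX, h⟩ := h
  simp only at hX h
  rcases h with h | ⟨h1, h2⟩
  · nlinarith [sq_nonneg (1 - X - Y), mul_pos hX h, sq_nonneg (1 - X)]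
  · have hs := Real.sq_sqrt hX.le
    have hs0 := Real.sqrt_pos.2 hX
    set s := √X
    have h3 : 2 * s < 1 + X + Y := by nlinarith
    have h4 : (2 * s) ^ 2 < (1 + X + Y) ^ 2 := by
      apply pow_lt_pow_left₀ h3 (by positivity) (by norm_num)
    nlinarith

lemma sum_pos {X Y : ℝ} (h : (X, Y) ∈ O) : 0 < 1 + X + Y := by
  obtain ⟨hX, h⟩ := h
  simp only at hX h
  rcases h with h | ⟨h1, h2⟩
  · linarith
  · have hs := Real.sq_sqrt hX.le
    have hs0 := Real.sqrt_pos.2 hX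
    set s := √X
    nlinarith

lemma rt_pos {X Y : ℝ} (h : (X, Y) ∈ O) : 0 < rt X Y := Real.sqrt_pos.2 (disc_pos h)

lemma rt_sq {X Y : ℝ} (h : (X, Y) ∈ O) : rt X Y ^ 2 = (1 + X + Y) ^ 2 - 4 * X :=
  Real.sq_sqrt (disc_pos h).le

lemma sum_eq (X Y : ℝ) : 1 + X + Y = rt X Y + 2 * lam X Y := by
  unfold lam
  ring

lemma X_eq {X Y : ℝ} (h : (X, Y) ∈ O) : X = lam X Y * (rt X Y + lam X Y) := by
  have h1 := rt_sq h
  unfold lam
  linear_combination (1 / 4) * h1

lemma Y_eq {X Y : ℝ} (h : (X, Y) ∈ O) : Y = (1 - lam X Y) * (rt X Y + lam X Y - 1) := by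
  have h1 := rt_sq h
  unfold lam
  linear_combination (-1 / 4) * h1

lemma lam_mem {X Y : ℝ} (h : (X, Y) ∈ O) : lam X Y ∈ Ioo (0 : ℝ) 1 := by
  have h0 := disc_pos h
  have h1 := rt_pos h
  have h2 := rt_sq h
  have h3 := sum_pos h
  obtain ⟨hX, hh⟩ := h
  simp only at hX hh
  constructor
  · unfold lam
    nlinarith
  · unfold lam
    rcases hh with hh | ⟨h4, h5⟩
    · -- `X + Y - 1 < rt`
      have : X + Y - 1 < rt X Y := by
        by_contra hc
        push Not at hc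
        nlinarith
      linarith
    · have hs := Real.sq_sqrt hX.le
      have hs0 := Real.sqrt_pos.2 hX
      have hs1 : √X < 1 := by
        rw [Real.sqrt_lt' one_pos]
        simpa using h4
      by_contra hc
      push Not at hc
      have h6 : rt X Y ≤ X + Y - 1 := by linarith
      have h7 : rt X Y ^ 2 ≤ (X + Y - 1) ^ 2 := by
        apply pow_le_pow_left₀ h1.le h6
      have h8 : Y ≤ 0 := by nlinarith
      linarith

/-- derivative of the square root along a curve -/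
lemma rt_curve {X Y : ℝ → ℝ} {h k s : ℝ} (hX : HasDerivAt X h s) (hY : HasDerivAt Y k s)
    (hO : (X s, Y s) ∈ O) : HasDerivAt (fun s => rt (X s) (Y s))
      (((X s + Y s - 1) * h + (1 + X s + Y s) * k) / rt (X s) (Y s)) s := by
  have h1 : HasDerivAt (fun s => (1 + X s + Y s) ^ 2 - 4 * X s)
      (2 * (1 + X s + Y s) * (h + k) - 4 * h) s := by
    have := (((hX.const_add 1).add hY).pow 2).sub (hX.const_mul 4)
    refine this.congr_deriv ?_
    simp only [Pi.add_apply]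
    norm_num
  have h2 := h1.sqrt (disc_pos hO).ne'
  refine h2.congr_deriv ?_
  have h3 := (rt_pos hO).ne'
  unfold rt at *
  field_simp
  ring

lemma lam_curve {X Y : ℝ → ℝ} {h k s : ℝ} (hX : HasDerivAt X h s) (hY : HasDerivAt Y k s)
    (hO : (X s, Y s) ∈ O) : HasDerivAt (fun s => lam (X s) (Y s))
      (((1 - lam (X s) (Y s)) * h - lam (X s) (Y s) * k) / rt (X s) (Y s)) s := by
  have h1 := rt_curve hX hY hO
  have h2 := (((hX.const_add 1).add hY).sub h1).div_const 2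
  refine h2.congr_deriv ?_
  have h3 := (rt_pos hO).ne'
  have h4 := sum_eq (X s) (Y s)
  have h5 : X s + Y s - 1 = rt (X s) (Y s) + 2 * lam (X s) (Y s) - 2 := by linarith
  rw [h5, h4]
  field_simp
  ring

lemma wt_curve {X Y : ℝ → ℝ} {h k s : ℝ} (hX : HasDerivAt X h s) (hY : HasDerivAt Y k s)
    (hO : (X s, Y s) ∈ O) : HasDerivAt (fun s => wt (lam (X s) (Y s)))
      (-(2 / 3) * (1 - 2 * lam (X s) (Y s)) / (lam (X s) (Y s) * (1 - lam (X s) (Y s))) *
        wt (lam (X s) (Y s)) *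
        (((1 - lam (X s) (Y s)) * h - lam (X s) (Y s) * k) / rt (X s) (Y s))) s :=
  HasDerivAt.comp s (h₂ := wt) (wt_deriv (lam_mem hO)) (lam_curve hX hY hO)

/-- first derivative in `X` -/
noncomputable def WX (X Y : ℝ) : ℝ := kc * wt (lam X Y) * (1 - lam X Y) / rt X Y

/-- first derivative in `Y` -/
noncomputable def WY (X Y : ℝ) : ℝ := -(kc * wt (lam X Y) * lam X Y / rt X Y)

/-- second derivative in `X` -/
noncomputable def WXX (X Y : ℝ) : ℝ :=
  kc * wt (lam X Y) * (-(2 / 3) * (1 - 2 * lam X Y) * (1 - lam X Y) / (lam X Y * rt X Y ^ 2) -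
    (1 - lam X Y) / rt X Y ^ 2 - (1 - lam X Y) * (X + Y - 1) / rt X Y ^ 3)

/-- mixed second derivative -/
noncomputable def WXY (X Y : ℝ) : ℝ :=
  kc * wt (lam X Y) * ((2 / 3) * (1 - 2 * lam X Y) / rt X Y ^ 2 +
    lam X Y / rt X Y ^ 2 - (1 - lam X Y) * (1 + X + Y) / rt X Y ^ 3)

/-- second derivative in `Y` -/
noncomputable def WYY (X Y : ℝ) : ℝ :=
  kc * wt (lam X Y) * (-(2 / 3) * (1 - 2 * lam X Y) * lam X Y / ((1 - lam X Y) * rt X Y ^ 2) +
    lam X Y / rt X Y ^ 2 + lam X Y * (1 + X + Y) / rt X Y ^ 3)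

lemma W_curve {X Y : ℝ → ℝ} {h k s : ℝ} (hX : HasDerivAt X h s) (hY : HasDerivAt Y k s)
    (hO : (X s, Y s) ∈ O) : HasDerivAt (fun s => W (X s) (Y s))
      (WX (X s) (Y s) * h + WY (X s) (Y s) * k) s := by
  have h1 := HasDerivAt.comp s (h₂ := Slit.cardy) (h := fun s => lam (X s) (Y s))
    (cardy_deriv (lam_mem hO)) (lam_curve hX hY hO)
  refine HasDerivAt.congr_deriv (f := fun s => W (X s) (Y s)) h1 ?_
  unfold WX WY
  ring

lemma WX_curve {X Y : ℝ → ℝ} {h k s : ℝ} (hX : HasDerivAt X h s) (hY : HasDerivAt Y k s)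
    (hO : (X s, Y s) ∈ O) : HasDerivAt (fun s => WX (X s) (Y s))
      (WXX (X s) (Y s) * h + WXY (X s) (Y s) * k) s := by
  have hr := (rt_pos hO).ne'
  have hl := (lam_mem hO).1.ne'
  have hl1 : 1 - lam (X s) (Y s) ≠ 0 := by
    have := (lam_mem hO).2
    linarith
  have h1 := (((wt_curve hX hY hO).const_mul kc).mul ((lam_curve hX hY hO).const_sub 1)).div
    (rt_curve hX hY hO) hr
  refine HasDerivAt.congr_deriv (f := fun s => WX (X s) (Y s)) h1 ?_
  have e1 := sum_eq (X s) (Y s)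
  have e2 : X s + Y s - 1 = rt (X s) (Y s) + 2 * lam (X s) (Y s) - 2 := by linarith
  unfold WXX WXY
  simp only [Pi.mul_apply]
  rw [e1, e2]
  generalize rt (X s) (Y s) = D at *
  generalize lam (X s) (Y s) = l at *
  generalize wt l = w at *
  field_simp
  ring

lemma WY_curve {X Y : ℝ → ℝ} {h k s : ℝ} (hX : HasDerivAt X h s) (hY : HasDerivAt Y k s)
    (hO : (X s, Y s) ∈ O) : HasDerivAt (fun s => WY (X s) (Y s))
      (WXY (X s) (Y s) * h + WYY (X s) (Y s) * k) s := by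
  have hr := (rt_pos hO).ne'
  have hl := (lam_mem hO).1.ne'
  have hl1 : 1 - lam (X s) (Y s) ≠ 0 := by
    have := (lam_mem hO).2
    linarith
  have h1 := ((((wt_curve hX hY hO).const_mul kc).mul (lam_curve hX hY hO)).div
    (rt_curve hX hY hO) hr).neg
  refine HasDerivAt.congr_deriv (f := fun s => WY (X s) (Y s)) h1 ?_
  have e1 := sum_eq (X s) (Y s)
  have e2 : X s + Y s - 1 = rt (X s) (Y s) + 2 * lam (X s) (Y s) - 2 := by linarith
  unfold WXY WYY
  simp only [Pi.mul_apply]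
  rw [e1, e2]
  generalize rt (X s) (Y s) = D at *
  generalize lam (X s) (Y s) = l at *
  generalize wt l = w at *
  field_simp
  ring

/-- the differential equation -/
theorem pde {X Y : ℝ} (hO : (X, Y) ∈ O) :
    X * WXX X Y + 2 / 3 * WX X Y + Y * WYY X Y + 2 / 3 * WY X Y = 0 := by
  have hr := (rt_pos hO).ne'
  have hl := (lam_mem hO).1.ne'
  have hl1 : 1 - lam X Y ≠ 0 := by
    have := (lam_mem hO).2
    linarith
  have e1 := sum_eq X Y
  have e2 : X + Y - 1 = rt X Y + 2 * lam X Y - 2 := by linarith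
  have e3 := X_eq hO
  have e4 := Y_eq hO
  unfold WXX WX WYY WY
  rw [e1, e2]
  generalize rt X Y = D at *
  generalize lam X Y = l at *
  generalize wt l = w at *
  subst e3
  rw [e4]
  field_simp
  ring

/-! ### bounds -/

lemma rt_nonneg (X Y : ℝ) : 0 ≤ rt X Y := Real.sqrt_nonneg _

lemma disc_eq (X Y : ℝ) : (1 + X + Y) ^ 2 - 4 * X = (1 + Y - X) ^ 2 + 4 * (X * Y) := by ring

lemma disc_nonneg {X Y : ℝ} (hX : 0 ≤ X) (hY : 0 ≤ Y) : 0 ≤ (1 + X + Y) ^ 2 - 4 * X := by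
  rw [disc_eq]
  positivity

lemma rt_ge {X Y : ℝ} (hX : 0 ≤ X) (hY : 0 ≤ Y) : |1 + Y - X| ≤ rt X Y := by
  unfold rt
  apply Real.le_sqrt_of_sq_le
  rw [sq_abs, disc_eq]
  nlinarith [mul_nonneg hX hY]

lemma lam_nonneg {X Y : ℝ} (hX : 0 ≤ X) (hY : 0 ≤ Y) : 0 ≤ lam X Y := by
  have h : rt X Y ≤ 1 + X + Y := by
    unfold rt
    rw [Real.sqrt_le_left (by linarith)]
    linarith
  unfold lam
  linarith

lemma one_sub_lam (X Y : ℝ) :
    1 - lam X Y = ((1 - X - Y) + √((1 - X - Y) ^ 2 + 4 * Y)) / 2 := by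
  have h : (1 + X + Y) ^ 2 - 4 * X = (1 - X - Y) ^ 2 + 4 * Y := by ring
  unfold lam rt
  rw [h]
  ring

lemma lam_le_one {X Y : ℝ} (hY : 0 ≤ Y) : lam X Y ≤ 1 := by
  have h := one_sub_lam X Y
  have h2 : |1 - X - Y| ≤ √((1 - X - Y) ^ 2 + 4 * Y) := by
    apply Real.le_sqrt_of_sq_le
    rw [sq_abs]
    linarith
  have h3 := neg_abs_le (1 - X - Y)
  linarith

lemma lam_Icc {X Y : ℝ} (hX : 0 ≤ X) (hY : 0 ≤ Y) : lam X Y ∈ Icc (0 : ℝ) 1 :=
  ⟨lam_nonneg hX hY, lam_le_one hY⟩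

/-- `lam ≤ X / (1 + Y)` -/
lemma lam_le {X Y : ℝ} (hX : 0 ≤ X) (hY : 0 ≤ Y) : lam X Y ≤ X / (1 + Y) := by
  have h1 := rt_ge hX hY
  have h2 := le_abs_self (1 + Y - X)
  have h3 := lam_nonneg hX hY
  have h4 : rt X Y ^ 2 = (1 + X + Y) ^ 2 - 4 * X := Real.sq_sqrt (disc_nonneg hX hY)
  have h5 : X = lam X Y * (rt X Y + lam X Y) := by
    unfold lam
    linear_combination (1 / 4) * h4
  have h6 := sum_eq X Y
  have h7 : 1 + Y ≤ rt X Y + lam X Y := by linarith
  rw [le_div_iff₀ (by linarith)]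
  nlinarith

/-- `1 - lam ≤ max 0 (1 - X) + sqrt Y` -/
lemma one_sub_lam_le {X Y : ℝ} (hY : 0 ≤ Y) : 1 - lam X Y ≤ max 0 (1 - X) + √Y := by
  rw [one_sub_lam]
  have h1 : √((1 - X - Y) ^ 2 + 4 * Y) ≤ |1 - X - Y| + 2 * √Y := by
    rw [Real.sqrt_le_left (by positivity)]
    have h2 := Real.sq_sqrt hY
    have h3 := sq_abs (1 - X - Y)
    nlinarith [mul_nonneg (abs_nonneg (1 - X - Y)) (Real.sqrt_nonneg Y)]
  have h4 : (1 - X - Y) + |1 - X - Y| ≤ 2 * max 0 (1 - X) := by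
    rcases le_total 0 (1 - X - Y) with h | h
    · rw [abs_of_nonneg h]
      have := le_max_right 0 (1 - X)
      linarith
    · rw [abs_of_nonpos h]
      have := le_max_left 0 (1 - X)
      linarith
  linarith

theorem W_nonneg {X Y : ℝ} (hX : 0 ≤ X) (hY : 0 ≤ Y) : 0 ≤ W X Y := cardy_nonneg (lam_Icc hX hY)

theorem W_le_one {X Y : ℝ} (hX : 0 ≤ X) (hY : 0 ≤ Y) : W X Y ≤ 1 := cardy_le_one (lam_Icc hX hY)

theorem W_le {X Y : ℝ} (hX : 0 ≤ X) (hY : 0 ≤ Y) (h : X ≤ 1 + Y) :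
    W X Y ≤ Slit.cardy (X / (1 + Y)) :=
  cardy_mono (lam_Icc hX hY) ⟨by positivity, by rw [div_le_one (by linarith)]; exact h⟩
    (lam_le hX hY)

/-- `W` is small on the left -/
theorem W_left {ε : ℝ} (hε : 0 < ε) :
    ∃ η : ℝ, 0 < η ∧ ∀ X Y : ℝ, 0 ≤ X → 0 ≤ Y → X ≤ η * (1 + Y) → W X Y ≤ ε := by
  have h0 : (0 : ℝ) ∈ Icc (0 : ℝ) 1 := ⟨le_rfl, zero_le_one⟩
  have h1 := cardy_cont 0 h0
  rw [Metric.continuousWithinAt_iff] at h1
  obtain ⟨δ, hδ, h2⟩ := h1 ε hε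
  refine ⟨δ / 2, half_pos hδ, fun X Y hX hY h => ?_⟩
  have h3 := lam_le hX hY
  have h4 : X / (1 + Y) ≤ δ / 2 := by
    rw [div_le_iff₀ (by linarith)]
    exact h
  have h5 := lam_Icc hX hY
  have h6 : dist (lam X Y) 0 < δ := by
    rw [Real.dist_eq, sub_zero, abs_of_nonneg h5.1]
    linarith
  have h7 := h2 h5 h6
  rw [cardy_zero, Real.dist_eq, sub_zero] at h7
  exact (le_abs_self _).trans h7.le

/-- `W` is close to `1` on the right -/
theorem W_right {ε : ℝ} (hε : 0 < ε) :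
    ∃ η : ℝ, 0 < η ∧ ∀ X Y : ℝ, 1 - η ≤ X → 0 ≤ X → 0 ≤ Y → Y ≤ η → 1 - ε ≤ W X Y := by
  have h0 : (1 : ℝ) ∈ Icc (0 : ℝ) 1 := ⟨zero_le_one, le_rfl⟩
  have h1 := cardy_cont 1 h0
  rw [Metric.continuousWithinAt_iff] at h1
  obtain ⟨δ, hδ, h2⟩ := h1 ε hε
  refine ⟨min (δ / 3) ((δ / 3) ^ 2), by positivity, fun X Y h hX hY h' => ?_⟩
  have h3 := one_sub_lam_le (X := X) hY
  have h4 : max 0 (1 - X) ≤ δ / 3 := by
    apply max_le (by positivity)
    have := min_le_left (δ / 3) ((δ / 3) ^ 2)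
    linarith
  have h5 : √Y ≤ δ / 3 := by
    rw [Real.sqrt_le_left (by positivity)]
    exact h'.trans (min_le_right _ _)
  have h6 := lam_Icc hX hY
  have h7 : dist (lam X Y) 1 < δ := by
    rw [dist_comm, Real.dist_eq, abs_of_nonneg (by linarith [h6.2])]
    linarith
  have h8 := h2 h6 h7
  rw [Slit.cardy_one, Real.dist_eq] at h8
  have h9 := (abs_lt.1 h8).1
  unfold W
  linarith

/-! ### smoothness -/

lemma cont_rt : Continuous (fun p : ℝ × ℝ => rt p.1 p.2) := by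
  unfold rt
  fun_prop

lemma cont_lam : Continuous (fun p : ℝ × ℝ => lam p.1 p.2) := by
  unfold lam
  have := cont_rt
  fun_prop

/-- `W` is continuous on the closed quadrant -/
theorem W_cont : ContinuousOn (fun p : ℝ × ℝ => W p.1 p.2) {p | 0 ≤ p.1 ∧ 0 ≤ p.2} := by
  intro p hp
  have h := (cardy_cont (lam p.1 p.2) (lam_Icc hp.1 hp.2))
  exact ContinuousWithinAt.comp (t := Icc 0 1) h cont_lam.continuousWithinAt
    fun q hq => lam_Icc hq.1 hq.2

theorem W_contO : ContinuousOn (fun p : ℝ × ℝ => W p.1 p.2) O := by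
  intro p hp
  have h := (cardy_deriv (lam_mem (X := p.1) (Y := p.2) hp)).continuousAt
  exact (ContinuousAt.comp (f := fun p : ℝ × ℝ => lam p.1 p.2) h
    cont_lam.continuousAt).continuousWithinAt

lemma smooth_rt : ContDiffOn ℝ 1 (fun p : ℝ × ℝ => rt p.1 p.2) O := by
  unfold rt
  refine ContDiffOn.sqrt ?_ fun p hp => (disc_pos (X := p.1) (Y := p.2) hp).ne'
  fun_prop

lemma smooth_lam : ContDiffOn ℝ 1 (fun p : ℝ × ℝ => lam p.1 p.2) O := by
  unfold lam
  have := smooth_rt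
  fun_prop

lemma smooth_wt : ContDiffOn ℝ 1 (fun p : ℝ × ℝ => wt (lam p.1 p.2)) O := by
  unfold wt
  refine ContDiffOn.rpow_const_of_ne ?_ fun p hp => ?_
  · have := smooth_lam
    fun_prop
  · have h := lam_mem (X := p.1) (Y := p.2) hp
    exact (mul_pos h.1 (by linarith [h.2])).ne'

lemma smooth_WX : ContDiffOn ℝ 1 (fun p : ℝ × ℝ => WX p.1 p.2) O := by
  have h1 := smooth_rt
  have h2 := smooth_lam
  have h3 := smooth_wt
  unfold WX
  refine ContDiffOn.div (by fun_prop) h1 fun p hp => (rt_pos (X := p.1) (Y := p.2) hp).ne'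

lemma smooth_WY : ContDiffOn ℝ 1 (fun p : ℝ × ℝ => WY p.1 p.2) O := by
  have h1 := smooth_rt
  have h2 := smooth_lam
  have h3 := smooth_wt
  unfold WY
  refine (ContDiffOn.div (by fun_prop) h1 fun p hp => (rt_pos (X := p.1) (Y := p.2) hp).ne').neg

lemma smooth_WXX : ContDiffOn ℝ 1 (fun p : ℝ × ℝ => WXX p.1 p.2) O := by
  have h1 := smooth_rt
  have h2 := smooth_lam
  have h3 := smooth_wt
  unfold WXX
  have hr : ∀ p ∈ O, rt (Prod.fst p) (Prod.snd p) ≠ 0 :=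
    fun p hp => (rt_pos (X := p.1) (Y := p.2) hp).ne'
  have hl : ∀ p ∈ O, lam (Prod.fst p) (Prod.snd p) ≠ 0 :=
    fun p hp => (lam_mem (X := p.1) (Y := p.2) hp).1.ne'
  refine (contDiffOn_const.mul h3).mul (((ContDiffOn.div (by fun_prop) (by fun_prop)
    fun p hp => mul_ne_zero (hl p hp) (pow_ne_zero 2 (hr p hp))).sub
    (ContDiffOn.div (by fun_prop) (by fun_prop) fun p hp => pow_ne_zero 2 (hr p hp))).sub
    (ContDiffOn.div (by fun_prop) (by fun_prop) fun p hp => pow_ne_zero 3 (hr p hp)))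

lemma smooth_WXY : ContDiffOn ℝ 1 (fun p : ℝ × ℝ => WXY p.1 p.2) O := by
  have h1 := smooth_rt
  have h2 := smooth_lam
  have h3 := smooth_wt
  unfold WXY
  have hr : ∀ p ∈ O, rt (Prod.fst p) (Prod.snd p) ≠ 0 :=
    fun p hp => (rt_pos (X := p.1) (Y := p.2) hp).ne'
  refine (contDiffOn_const.mul h3).mul (((ContDiffOn.div (by fun_prop) (by fun_prop)
    fun p hp => pow_ne_zero 2 (hr p hp)).add
    (ContDiffOn.div (by fun_prop) (by fun_prop) fun p hp => pow_ne_zero 2 (hr p hp))).sub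
    (ContDiffOn.div (by fun_prop) (by fun_prop) fun p hp => pow_ne_zero 3 (hr p hp)))

lemma smooth_WYY : ContDiffOn ℝ 1 (fun p : ℝ × ℝ => WYY p.1 p.2) O := by
  have h1 := smooth_rt
  have h2 := smooth_lam
  have h3 := smooth_wt
  unfold WYY
  have hr : ∀ p ∈ O, rt (Prod.fst p) (Prod.snd p) ≠ 0 :=
    fun p hp => (rt_pos (X := p.1) (Y := p.2) hp).ne'
  have hl : ∀ p ∈ O, 1 - lam (Prod.fst p) (Prod.snd p) ≠ 0 := fun p hp => by
    have := (lam_mem (X := p.1) (Y := p.2) hp).2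
    intro h
    linarith
  refine (contDiffOn_const.mul h3).mul (((ContDiffOn.div (by fun_prop) (by fun_prop)
    fun p hp => mul_ne_zero (hl p hp) (pow_ne_zero 2 (hr p hp))).add
    (ContDiffOn.div (by fun_prop) (by fun_prop) fun p hp => pow_ne_zero 2 (hr p hp))).add
    (ContDiffOn.div (by fun_prop) (by fun_prop) fun p hp => pow_ne_zero 3 (hr p hp)))

end JW
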